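import Mathlib

open MeasureTheory Filter Topology Set Real
open scoped ENNReal

namespace Pool.Agent.Results.MP_a53ef7_an.Neck

/-- geodesic distance on the unit circle -/
noncomputable def d (z w : Circle) : ℝ := InnerProductGeometry.angle (z : ℂ) (w : ℂ)

/-- truncated gap integral for m = 1 and target the unit circle -/
noncomputable def G (p t : ℝ) (f : ℝ → Circle) (Ω : Set ℝ) : ℝ≥0∞ :=
  ∫⁻ z in {z : ℝ × ℝ | z.1 ∈ Ω ∧ z.2 ∈ Ω ∧ t ≤ d (f z.2) (f z.1)},
    ENNReal.ofReal ((d (f z.2) (f z.1) - t) ^ p / |z.2 - z.1| ^ 2)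

noncomputable def L (r x : ℝ) : ℝ := log (max x r) - log r

lemma L_zero {r x : ℝ} (h : x ≤ r) : L r x = 0 := by simp [L, max_eq_right h]

lemma L_nonneg {r : ℝ} (hr : 0 < r) (x : ℝ) : 0 ≤ L r x :=
  sub_nonneg.2 (log_le_log hr (le_max_right _ _))

lemma L_gap {r x y : ℝ} (hr : 0 < r) (hx : 0 ≤ x) (hy : 0 ≤ y) (h : log 2 ≤ |L r y - L r x|) :
    max x y / 2 ≤ |y - x| := by
  wlog hxy : x ≤ y generalizing x y
  · rw [max_comm, abs_sub_comm]
    exact this hy hx (by rwa [abs_sub_comm]) (le_of_not_ge hxy)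
  have h0 : 0 < max x r := lt_max_of_lt_right hr
  have h1 : log (max x r) ≤ log (max y r) := log_le_log h0 (max_le_max_right _ hxy)
  rw [L, L, abs_of_nonneg (by linarith)] at h
  have h2 : log (2 * max x r) ≤ log (max y r) := by
    rw [log_mul (by norm_num) h0.ne']; linarith
  rw [log_le_log_iff (by positivity) (lt_max_of_lt_right hr)] at h2
  rw [max_eq_right hxy, abs_of_nonneg (by linarith)]
  have := le_max_left x r
  have := le_max_right x r
  rcases le_total y r with h3 | h3
  · rw [max_eq_right h3] at h2; linarith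
  · rw [max_eq_left h3] at h2; linarith

noncomputable def T (r x : ℝ) : ℝ := L r x - L r (-x)

lemma T_gap {r x y : ℝ} (hr : 0 < r) (h : log 2 ≤ |T r y - T r x|) :
    r < max |x| |y| ∧ max |x| |y| / 2 ≤ |y - x| := by
  constructor
  · by_contra hh
    rw [not_lt, max_le_iff, abs_le, abs_le] at hh
    rw [T, T, L_zero hh.1.2, L_zero hh.2.2, L_zero (neg_le.1 hh.1.1), L_zero (neg_le.1 hh.2.1)] at h
    have := log_pos (x := 2) (by norm_num)
    simp at h; linarith
  · rcases le_total 0 x with hx | hx <;> rcases le_total 0 y with hy | hy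
    · rw [abs_of_nonneg hx, abs_of_nonneg hy]
      apply L_gap hr hx hy
      rwa [T, T, L_zero (x := -x) (by linarith), L_zero (x := -y) (by linarith), sub_zero,
        sub_zero] at h
    · rw [abs_of_nonneg hx, abs_of_nonpos hy, abs_of_nonpos (by linarith), div_le_iff₀ two_pos]
      apply max_le <;> linarith
    · rw [abs_of_nonpos hx, abs_of_nonneg hy, abs_of_nonneg (by linarith), div_le_iff₀ two_pos]
      apply max_le <;> linarith
    · rw [abs_of_nonpos hx, abs_of_nonpos hy, ← abs_neg (y - x), neg_sub', sub_neg_eq_add,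
        ← sub_neg_eq_add]
      apply L_gap hr (by linarith) (by linarith)
      rwa [T, T, L_zero (x := x) (by linarith), L_zero (x := y) (by linarith), zero_sub,
        zero_sub, ← abs_neg, neg_sub', neg_neg, neg_neg] at h

noncomputable def θ (K : ℕ) (x : ℝ) : ℝ := T ((1 / 2) ^ (2 * K)) x / (2 * K * log 2)

noncomputable def f (K : ℕ) (x : ℝ) : Circle := Circle.exp (θ K x)

lemma log_r (K : ℕ) : log ((1 / 2 : ℝ) ^ K) = -(K * log 2) := by
  rw [log_pow, one_div, log_inv]; ring

lemma l2 : 0 < log 2 := log_pos (by norm_num)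

lemma θ_le {K : ℕ} (hK : 0 < K) {x : ℝ} (hx : x ∈ Icc (-1 : ℝ) 1) : |θ K x| ≤ 1 := by
  have hr : (0 : ℝ) < (1 / 2) ^ (2 * K) := by positivity
  have hr1 : (1 / 2 : ℝ) ^ (2 * K) ≤ 1 := pow_le_one₀ (by norm_num) (by norm_num)
  have a : ∀ y ≤ 1, L ((1 / 2) ^ (2 * K)) y ≤ 2 * K * log 2 := fun y hy => by
    have := log_nonpos (le_max_of_le_right hr.le) (max_le hy hr1)
    rw [L, log_r]; push_cast; linarith
  have := l2
  rw [θ, abs_div, abs_of_pos (a := 2 * K * log 2) (by positivity), div_le_one (by positivity),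
    abs_le, T]
  constructor <;> linarith [a x hx.2, a (-x) (by linarith [hx.1]), L_nonneg hr x, L_nonneg hr (-x)]

lemma d_eq {K : ℕ} (hK : 0 < K) {x y : ℝ} (hx : x ∈ Icc (-1 : ℝ) 1) (hy : y ∈ Icc (-1 : ℝ) 1) :
    d (f K y) (f K x) = |θ K y - θ K x| ∧ d (f K y) (f K x) ≤ 2 := by
  have h1 := abs_le.1 (θ_le hK hx)
  have h2 := abs_le.1 (θ_le hK hy)
  have e : d (f K y) (f K x) = |θ K y - θ K x| := by
    rw [d, f, f, Circle.coe_exp, Circle.coe_exp, Complex.angle_exp_exp,
      (toIocMod_eq_self _).2 ⟨by linarith [pi_gt_three], by linarith [pi_gt_three]⟩]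
  exact ⟨e, by rw [e, abs_le]; constructor <;> linarith⟩

lemma f_cont (K : ℕ) : Continuous (f K) := by
  have : ∀ r : ℝ, 0 < r → Continuous (L r) := fun r hr =>
    ((continuous_id.max continuous_const).log fun x => (lt_max_of_lt_right hr).ne').sub
      continuous_const
  have h := this ((1 / 2) ^ (2 * K)) (by positivity)
  exact Circle.exp.continuous.comp ((h.sub (h.comp continuous_neg)).div_const _)

lemma upper {p : ℝ} (hp : p ∈ Ico (0 : ℝ) 1) {K : ℕ} (hK : 0 < K) :
    G p (1 / (2 * K)) (f K) (Icc (-1) 1) ≤ ENNReal.ofReal (256 * K) := by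
  let B : ℕ → Set (ℝ × ℝ) := fun j =>
    Icc (-(1 / 2) ^ j) ((1 / 2) ^ j) ×ˢ Icc (-(1 / 2) ^ j) ((1 / 2) ^ j)
  have hB : ∀ j, MeasurableSet (B j) := fun j => measurableSet_Icc.prod measurableSet_Icc
  calc _ ≤ ∫⁻ z, ∑ j ∈ Finset.range (2 * K),
        (B j).indicator (fun _ => ENNReal.ofReal (32 * 4 ^ j)) z := by
        refine (setLIntegral_mono (Finset.measurable_sum _ fun j _ =>
          measurable_const.indicator (hB j)) ?_).trans (setLIntegral_le_lintegral _ _)
        rintro ⟨x, y⟩ ⟨hx, hy, h⟩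
        obtain ⟨e, e2⟩ := d_eq hK hx hy
        simp only at h ⊢
        have hK' : (0 : ℝ) < K := by exact_mod_cast hK
        have hl := l2
        have h1 : log 2 ≤ |T ((1 / 2) ^ (2 * K)) y - T ((1 / 2) ^ (2 * K)) x| := by
          rw [e, θ, θ, ← sub_div, abs_div, abs_of_pos (a := 2 * K * log 2) (by positivity),
            div_le_div_iff₀ (by positivity) (by positivity)] at h
          nlinarith
        obtain ⟨h2, h3⟩ := T_gap (by positivity) h1
        have h0 : 0 < max |x| |y| := lt_trans (by positivity) h2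
        obtain ⟨j, j1, j2⟩ := exists_nat_pow_near_of_lt_one h0
          (max_le (abs_le.2 hx) (abs_le.2 hy)) (y := 1 / 2) (by norm_num) (by norm_num)
        have j3 : j < 2 * K :=
          (pow_lt_pow_iff_right_of_lt_one₀ (by norm_num) (by norm_num)).1 (h2.trans_le j2)
        refine le_trans ?_ (Finset.single_le_sum (f := fun j =>
          (B j).indicator (fun _ => ENNReal.ofReal (32 * 4 ^ j)) (x, y)) (fun _ _ => by simp)
          (Finset.mem_range.2 j3))
        have hm : (x, y) ∈ B j :=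
          ⟨abs_le.1 ((le_max_left _ _).trans j2), abs_le.1 ((le_max_right _ _).trans j2)⟩
        simp only [indicator_of_mem hm]
        apply ENNReal.ofReal_le_ofReal
        have h4 : (d (f K y) (f K x) - 1 / (2 * K)) ^ p ≤ 2 := by
          have : (0 : ℝ) < 1 / (2 * K) := by positivity
          calc _ ≤ (2 : ℝ) ^ p := rpow_le_rpow (by linarith) (by linarith) hp.1
            _ ≤ 2 ^ (1 : ℝ) := rpow_le_rpow_of_exponent_le (by norm_num) hp.2.le
            _ = 2 := rpow_one _
        have h5 : (1 / 2 : ℝ) ^ j / 4 ≤ |y - x| := by rw [pow_succ] at j1; linarith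
        have h6 := pow_le_pow_left₀ (by positivity) h5 2
        have h7 : (4 : ℝ) ^ j * (1 / 2) ^ j * (1 / 2) ^ j = 1 := by
          rw [← mul_pow, ← mul_pow]; norm_num
        rw [div_le_iff₀ (lt_of_lt_of_le (by positivity) h6)]
        have h8 := mul_le_mul_of_nonneg_left h6 (show (0 : ℝ) ≤ 32 * 4 ^ j by positivity)
        nlinarith
    _ = ∑ j ∈ Finset.range (2 * K), ENNReal.ofReal 128 := by
        rw [lintegral_finsetSum _ fun j _ => measurable_const.indicator (hB j)]
        refine Finset.sum_congr rfl fun j _ => ?_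
        rw [lintegral_indicator_const (hB j), Measure.volume_eq_prod, Measure.prod_prod,
          volume_Icc, ← ENNReal.ofReal_mul (by ring_nf; positivity),
          ← ENNReal.ofReal_mul (by positivity)]
        congr 1
        have : (4 : ℝ) ^ j * (1 / 2) ^ j * (1 / 2) ^ j = 1 := by
          rw [← mul_pow, ← mul_pow]; norm_num
        linear_combination 128 * this
    _ = _ := by
        rw [Finset.sum_const, Finset.card_range, nsmul_eq_mul, ← ENNReal.ofReal_natCast,
          ← ENNReal.ofReal_mul (by positivity)]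
        congr 1; push_cast; ring

lemma lower {p : ℝ} (hp : p ∈ Ico (0 : ℝ) 1) {K : ℕ} (hK : 0 < K) :
    ENNReal.ofReal (K / 32) ≤ G p (1 / 2) (f K) (Icc (-1) 1) := by
  let A : ℕ → Set ℝ := fun j => Ioc ((1 / 2) ^ (j + 1)) ((1 / 2) ^ j)
  let B : ℕ → Set (ℝ × ℝ) := fun j => Icc (-(1 / 2) ^ j) (-(1 / 2) ^ (j + 1)) ×ˢ A j
  have hB : ∀ j, MeasurableSet (B j) := fun j => measurableSet_Icc.prod measurableSet_Ioc
  have hK' : (0 : ℝ) < K := by exact_mod_cast hK
  have hl := l2
  have key : ∀ j < K, ∀ z ∈ B j, z.1 ∈ Icc (-1 : ℝ) 1 ∧ z.2 ∈ Icc (-1 : ℝ) 1 ∧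
      1 ≤ d (f K z.2) (f K z.1) := by
    rintro j hj ⟨x, y⟩ ⟨⟨a1, a2⟩, ⟨a3, a4⟩⟩
    simp only at a1 a2 a3 a4 ⊢
    have b1 : (1 / 2 : ℝ) ^ j ≤ 1 := pow_le_one₀ (by norm_num) (by norm_num)
    have b2 : (1 / 2 : ℝ) ^ K ≤ (1 / 2) ^ (j + 1) :=
      pow_le_pow_of_le_one (by norm_num) (by norm_num) hj
    have b3 : (0 : ℝ) < (1 / 2) ^ K := by positivity
    have b4 : (0 : ℝ) < (1 / 2) ^ (2 * K) := by positivity
    have hx : x ∈ Icc (-1 : ℝ) 1 := ⟨by linarith, by linarith⟩
    have hy : y ∈ Icc (-1 : ℝ) 1 := ⟨by linarith, by linarith⟩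
    refine ⟨hx, hy, ?_⟩
    have c : ∀ w, (1 / 2 : ℝ) ^ K ≤ w → K * log 2 ≤ L ((1 / 2) ^ (2 * K)) w := fun w hw => by
      have := log_le_log b3 (hw.trans (le_max_left w ((1 / 2) ^ (2 * K))))
      rw [log_r] at this
      rw [L, log_r]; push_cast; linarith
    rw [(d_eq hK hx hy).1]
    refine le_trans ?_ (le_abs_self _)
    rw [θ, θ, ← sub_div, le_div_iff₀ (by positivity), T, T, L_zero (x := x) (by linarith),
      L_zero (x := -y) (by linarith)]
    linarith [c y (by linarith), c (-x) (by linarith)]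
  have hd : Set.PairwiseDisjoint (Finset.range K : Set ℕ) B := by
    intro i hi j hj hij
    wlog h : i < j generalizing i j
    · exact (this hj hi hij.symm (by omega)).symm
    rw [Function.onFun, Set.disjoint_left]
    rintro z ⟨-, a, -⟩ ⟨-, -, b⟩
    have : (1 / 2 : ℝ) ^ j ≤ (1 / 2) ^ (i + 1) :=
      pow_le_pow_of_le_one (by norm_num) (by norm_num) h
    linarith
  calc _ = ∑ j ∈ Finset.range K, ENNReal.ofReal (1 / 32) := by
        rw [Finset.sum_const, Finset.card_range, nsmul_eq_mul, ← ENNReal.ofReal_natCast,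
          ← ENNReal.ofReal_mul (by positivity)]
        congr 1; ring
    _ ≤ ∑ j ∈ Finset.range K, ∫⁻ z in B j, ENNReal.ofReal
          ((d (f K z.2) (f K z.1) - 1 / 2) ^ p / |z.2 - z.1| ^ 2) := by
        refine Finset.sum_le_sum fun j hj => ?_
        have h7 : (4 : ℝ) ^ j * (1 / 2) ^ j * (1 / 2) ^ j = 1 := by
          rw [← mul_pow, ← mul_pow]; norm_num
        have hq : (0 : ℝ) < (1 / 2) ^ j := by positivity
        refine le_trans (le_of_eq ?_) (setLIntegral_mono' (f := fun _ => ENNReal.ofReal (4 ^ j / 8))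
          (hB j) fun z hz => ENNReal.ofReal_le_ofReal ?_)
        · rw [setLIntegral_const, Measure.volume_eq_prod, Measure.prod_prod, volume_Icc,
            volume_Ioc, ← ENNReal.ofReal_mul (by rw [pow_succ]; linarith),
            ← ENNReal.ofReal_mul (by positivity)]
          congr 1
          rw [pow_succ]
          linear_combination (-1 / 32) * h7
        · have h1 := (key j (Finset.mem_range.1 hj) z hz).2.2
          obtain ⟨⟨a1, a2⟩, ⟨a3, a4⟩⟩ := hz
          have h4 : 1 / 2 ≤ (d (f K z.2) (f K z.1) - 1 / 2) ^ p :=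
            calc (1 / 2 : ℝ) = (1 / 2) ^ (1 : ℝ) := (rpow_one _).symm
              _ ≤ (1 / 2) ^ p := rpow_le_rpow_of_exponent_ge (by norm_num) (by norm_num) hp.2.le
              _ ≤ _ := rpow_le_rpow (by norm_num) (by linarith) hp.1
          rw [pow_succ] at a2 a3
          have h5 : 0 < z.2 - z.1 := by linarith
          have h6 := pow_le_pow_left₀ h5.le (show z.2 - z.1 ≤ 2 * (1 / 2) ^ j by linarith) 2
          rw [abs_of_pos h5, le_div_iff₀ (by positivity)]
          have h8 := mul_le_mul_of_nonneg_left h6 (show (0 : ℝ) ≤ 4 ^ j / 8 by positivity)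
          nlinarith
    _ ≤ _ := by
        rw [← lintegral_biUnion_finset hd fun j _ => hB j]
        apply lintegral_mono_set
        intro z hz
        simp only [mem_iUnion] at hz
        obtain ⟨j, hj, hz⟩ := hz
        obtain ⟨a, b, c⟩ := key j (Finset.mem_range.1 hj) z hz
        exact ⟨a, b, by linarith⟩

theorem result (p : ℝ) (hp : p ∈ Ico (0 : ℝ) 1) :
    ¬ ∃ C : ℝ, ∀ Ω : Set ℝ, Convex ℝ Ω → ∀ f : ℝ → Circle, Continuous f →
      ∀ δ ε : ℝ, 0 < δ → δ < ε →
        G p ε f Ω ≤ ENNReal.ofReal (C * (δ / ε) ^ (1 - p)) * G p δ f Ω := by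
  rintro ⟨C, h⟩
  have t : Tendsto (fun K : ℕ => C * 8192 * (K : ℝ) ^ (-(1 - p))) atTop (𝓝 0) := by
    simpa using ((tendsto_rpow_neg_atTop (y := 1 - p) (by linarith [hp.2])).comp
      tendsto_natCast_atTop_atTop).const_mul (C * 8192)
  obtain ⟨K, h1, h2⟩ := ((t.eventually (gt_mem_nhds one_pos)).and (eventually_ge_atTop 2)).exists
  have hK : (2 : ℝ) ≤ K := by exact_mod_cast h2
  have h3 := (lower hp (K := K) (by omega)).trans ((h _ (convex_Icc _ _) _ (f_cont K)
    (1 / (2 * K)) (1 / 2) (by positivity)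
    (one_div_lt_one_div_of_lt (by norm_num) (by linarith))).trans
    (mul_le_mul_right (upper hp (by omega)) _))
  have e : (1 / (2 * K) / (1 / 2) : ℝ) ^ (1 - p) = (K : ℝ) ^ (-(1 - p)) := by
    rw [rpow_neg (by positivity), ← inv_rpow (by positivity)]
    congr 1; field_simp
  rw [e, ← ENNReal.ofReal_mul' (by positivity), ← not_lt,
    ENNReal.ofReal_lt_ofReal_iff (by positivity)] at h3
  apply h3
  nlinarith

end Pool.Agent.Results.MP_a53ef7_an.Neck
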